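import Pool.Agent.AT5.Stmts2
import Pool.Agent.Helper69_K9.Fmg
import Pool.Agent.Helper47_PP.Osi
import Pool.Agent.Helper63_PP.Smt
import Pool.Agent.Helper74_PP.Brt

/-!
# Squad AT5, row KIN: the class sum of `u y` is invertible in the block
-/

open scoped BigOperators

noncomputable section

namespace Pool.Agent.PP.T5.H76

open Pool.Agent.Helper51_AWC Pool.Agent.Helper79_WRA Pool.Agent.PP Pool.Agent.PP.KF
open Pool.Agent.PP.K9 Pool.Agent.PP.K9.H97 Pool.Agent.PP.H75 Pool.Agent.PP.T3 Pool.Agent.PP.T2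

attribute [local instance] Ideal.Quotient.field

section rep

variable {F : Type} [Field F] {H : Type} [Group H] [Finite H]

/-- a central idempotent which is not zero acts as the identity on some irreducible
representation -/
theorem exists_rep {ℓ : ℕ} (hF : GoodF ℓ F) {e : H → F} (he : IsIdem e) (h0 : e ≠ 0) :
    ∃ (n : ℕ) (ρ : H →* Matrix (Fin n) (Fin n) F), IsIrr ρ ∧ ev ρ e = 1 := by
  by_contra hcon
  push Not at hcon
  have h1 : ∀ (n : ℕ) (ρ : H →* Matrix (Fin n) (Fin n) F), IsIrr ρ → ev ρ e = 0 := by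
    intro n ρ hρ
    obtain ⟨w, hw, hw2, hw3⟩ := H20.eig F H n ρ hρ e he.1
    rcases hw3 he with h | h
    · rw [hw, h, map_zero]
    · exact absurd (by rw [hw, h, map_one]) (hcon n ρ hρ)
  obtain ⟨k, hk⟩ := H20.ibn ℓ F hF H e h1
  have h2 : ∀ m : ℕ, (mulF e)^[m] e = e := by
    intro m
    induction m with
    | zero => rfl
    | succ m ih => rw [Function.iterate_succ_apply', ih, he.2]
  exact h0 (by rw [← h2 k, hk])

theorem eq_zero_of_pow_eq_zero' {x : F} {n : ℕ} (h : x ^ n = 0) : x = 0 := by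
  by_contra hx
  exact pow_ne_zero n hx h

theorem ev_zero {n : ℕ} (ρ : H →* Matrix (Fin n) (Fin n) F) : ev ρ (0 : H → F) = 0 := by
  unfold ev
  have h3 : ∀ t : H, (0 : H → F) t • ρ t = 0 := fun t => zero_smul F (ρ t)
  rw [finsum_congr h3, finsum_zero]

omit [Finite H] in
theorem smul_scalar (d : ℕ) (k w : F) :
    k • Matrix.scalar (Fin d) w = Matrix.scalar (Fin d) (k * w) := by
  ext i j
  rw [Matrix.smul_apply, Matrix.scalar_apply, Matrix.scalar_apply, Matrix.diagonal_apply,
    Matrix.diagonal_apply]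
  by_cases hij : i = j
  · rw [if_pos hij, if_pos hij, smul_eq_mul]
  · rw [if_neg hij, if_neg hij, smul_zero]

theorem scalar_entry {d : ℕ} (hd : 0 < d) {w : F} (h : Matrix.scalar (Fin d) w = 0) : w = 0 := by
  have h5 := congrFun (congrFun h ⟨0, hd⟩) ⟨0, hd⟩
  rwa [Matrix.scalar_apply, Matrix.diagonal_apply_eq, Matrix.zero_apply] at h5

theorem one_ne {d : ℕ} (hd : 0 < d) : (0 : Matrix (Fin d) (Fin d) F) ≠ 1 := by
  intro h2
  have h3 := congrFun (congrFun h2 ⟨0, hd⟩) ⟨0, hd⟩
  rw [Matrix.one_apply_eq, Matrix.zero_apply] at h3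
  exact zero_ne_one h3

omit [Finite H] in
/-- the index in the normaliser -/
theorem idx_norm {ℓ : ℕ} {N V : Subgroup H} (hVN : V ≤ N) {x y : N} (hVx : V ≤ Cu (x : H))
    (hxy : Cu (x : H) ≤ Cu (y : H)) (h : ¬ ℓ ∣ V.relIndex (Cu (y : H))) :
    ¬ ℓ ∣ (Cu x).relIndex (Cu y) := by
  intro hk
  apply h
  have h1 : Cu x = (Cu (x : H)).subgroupOf N := by
    ext t
    rw [Subgroup.mem_subgroupOf, Subgroup.mem_centralizer_singleton_iff,
      Subgroup.mem_centralizer_singleton_iff]
    exact ⟨fun h => congrArg Subtype.val h, fun h => Subtype.ext h⟩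
  have h2 : Cu y = (N ⊓ Cu (y : H)).subgroupOf N := by
    ext t
    rw [Subgroup.mem_subgroupOf, Subgroup.mem_centralizer_singleton_iff, Subgroup.mem_inf,
      Subgroup.mem_centralizer_singleton_iff]
    exact ⟨fun h => ⟨t.2, congrArg Subtype.val h⟩, fun h => Subtype.ext h.2⟩
  rw [h1, h2, Subgroup.relIndex_subgroupOf inf_le_left, ← Subgroup.inf_relIndex_right] at hk
  have h3 := Subgroup.relIndex_mul_relIndex V (Cu (x : H) ⊓ (N ⊓ Cu (y : H))) (N ⊓ Cu (y : H))
    (le_inf hVx (le_inf hVN (hVx.trans hxy))) inf_le_right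
  have h4 := Subgroup.relIndex_mul_relIndex V (N ⊓ Cu (y : H)) (Cu (y : H))
    (le_inf hVN (hVx.trans hxy)) inf_le_right
  rw [← h4, ← h3]
  exact (hk.mul_left _).mul_right _

/-- the number of the conjugates of `X` under a subgroup -/
theorem card_orb (X : H) (C : Subgroup H) :
    Nat.card {t : H // ∃ q ∈ C, t = q * X * q⁻¹} = (Cu X).relIndex C := by
  letI : MulAction C H := MulAction.compHom H ((MulAut.conj : H →* MulAut H).comp C.subtype)
  have hsm : ∀ (c : C) (t : H), c • t = (c : H) * t * (c : H)⁻¹ := fun c t => rfl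
  have h1 := MulAction.index_stabilizer C X
  have h2 : MulAction.stabilizer C X = (Cu X).subgroupOf C := by
    ext c
    rw [MulAction.mem_stabilizer_iff, hsm, Subgroup.mem_subgroupOf,
      Subgroup.mem_centralizer_singleton_iff, mul_inv_eq_iff_eq_mul]
  have h3 : {t : H | ∃ q ∈ C, t = q * X * q⁻¹} = MulAction.orbit C X := by
    ext t
    constructor
    · rintro ⟨q, hq, rfl⟩
      exact ⟨⟨q, hq⟩, rfl⟩
    · rintro ⟨q, rfl⟩
      exact ⟨q, q.2, rfl⟩
  have h4 : (Cu X).relIndex C = ((Cu X).subgroupOf C).index := rfl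
  rw [h4, ← h2, h1, ← h3]
  rfl

/-- the power map to the regular part -/
theorem exists_pow {ℓ : ℕ} {u y : H} {a : ℕ} (hc : u * y = y * u) (hu : orderOf u = ℓ ^ a)
    (hy : Reg ℓ y) : ∃ m : ℕ, (u * y) ^ m = y := by
  have h1 : (ℓ ^ a).Coprime (orderOf y) := Nat.Coprime.pow_left a (Nat.Coprime.symm hy)
  obtain ⟨m, hm1, hm2⟩ := Nat.chineseRemainder h1 0 1
  refine ⟨m, ?_⟩
  have hcc : Commute u y := hc
  rw [hcc.mul_pow]
  have h2 : u ^ m = 1 := by
    rw [← orderOf_dvd_iff_pow_eq_one, hu]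
    exact (Nat.modEq_zero_iff_dvd).1 hm1
  have h3 : y ^ m = y := by
    have h4 := pow_eq_pow_iff_modEq (x := y) (n := m) (m := 1)
    rw [pow_one] at h4
    exact h4.2 hm2
  rw [h2, h3, one_mul]

/-- the class sums of `u y` and `y` under a representation on which the conjugates of `u` act
trivially -/
theorem ev_clsum {n : ℕ} (ρ : H →* Matrix (Fin n) (Fin n) F) {u y : H} {m : ℕ}
    (hm : (u * y) ^ m = y) (hu : ∀ q : H, ρ (q * u * q⁻¹) = 1) :
    ev ρ (clsum F (⊤ : Subgroup H) (u * y)) =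
      (((Cu (u * y)).relIndex (Cu y) : ℕ) : F) • ev ρ (clsum F (⊤ : Subgroup H) y) := by
  classical
  have hfin := Fintype.ofFinite H
  have hconj : ∀ q x : H, (q * x * q⁻¹) ^ m = q * x ^ m * q⁻¹ := fun q x => conj_pow
  let K : H → Finset H := fun x => Finset.univ.filter fun t => ∃ q : H, t = q * x * q⁻¹
  have hev : ∀ x : H, ev ρ (clsum F (⊤ : Subgroup H) x) = ∑ t ∈ K x, ρ t := by
    intro x
    unfold ev
    rw [finsum_eq_sum_of_fintype]
    change _ = ∑ t ∈ Finset.univ.filter (fun t => ∃ q : H, t = q * x * q⁻¹), ρ t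
    rw [Finset.sum_filter]
    apply Finset.sum_congr rfl
    intro t _
    unfold clsum
    by_cases h : ∃ q : H, t = q * x * q⁻¹
    · rw [if_pos h, if_pos, one_smul]
      obtain ⟨q, hq⟩ := h
      exact ⟨q, Subgroup.mem_top _, hq⟩
    · rw [if_neg h, if_neg, zero_smul]
      rintro ⟨q, -, hq⟩
      exact h ⟨q, hq⟩
  rw [hev, hev]
  have hmem : ∀ x t : H, t ∈ K x ↔ ∃ q : H, t = q * x * q⁻¹ := by
    intro x t
    change t ∈ Finset.univ.filter (fun t => ∃ q : H, t = q * x * q⁻¹) ↔ _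
    rw [Finset.mem_filter]
    exact and_iff_right (Finset.mem_univ t)
  have h1 : ∀ t ∈ K (u * y), t ^ m ∈ K y := by
    intro t ht
    rw [hmem] at ht ⊢
    obtain ⟨q, rfl⟩ := ht
    exact ⟨q, by rw [hconj, hm]⟩
  have h2 : ∀ t ∈ K (u * y), ρ t = ρ (t ^ m) := by
    intro t ht
    rw [hmem] at ht
    obtain ⟨q, rfl⟩ := ht
    rw [hconj, hm]
    have h3 : q * (u * y) * q⁻¹ = q * u * q⁻¹ * (q * y * q⁻¹) := by group
    rw [h3, map_mul ρ (q * u * q⁻¹) (q * y * q⁻¹), hu, one_mul]
  rw [Finset.sum_congr rfl h2, ← Finset.sum_fiberwise_of_maps_to h1, Finset.smul_sum]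
  apply Finset.sum_congr rfl
  intro s hs
  have h4 : ∑ t ∈ (K (u * y)).filter (fun t => t ^ m = s), ρ (t ^ m) =
      ∑ t ∈ (K (u * y)).filter (fun t => t ^ m = s), ρ s := by
    apply Finset.sum_congr rfl
    intro t ht
    rw [(Finset.mem_filter.1 ht).2]
  rw [h4, Finset.sum_const, ← Nat.cast_smul_eq_nsmul F]
  congr 2
  obtain ⟨r, hr⟩ := (hmem y s).1 hs
  rw [← card_orb, ← Nat.card_eq_finsetCard]
  refine Nat.card_congr ⟨fun t => ⟨r⁻¹ * t.1 * r, ?_⟩, fun t => ⟨r * t.1 * r⁻¹, ?_⟩, ?_, ?_⟩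
  · obtain ⟨h5, h6⟩ := Finset.mem_filter.1 t.2
    obtain ⟨q, hq⟩ := (hmem _ _).1 h5
    refine ⟨r⁻¹ * q, ?_, ?_⟩
    · rw [Subgroup.mem_centralizer_singleton_iff]
      rw [hq, hconj, hm, hr] at h6
      calc r⁻¹ * q * y = r⁻¹ * (q * y * q⁻¹) * q := by group
        _ = r⁻¹ * (r * y * r⁻¹) * q := by rw [h6]
        _ = y * (r⁻¹ * q) := by group
    · rw [hq]
      group
  · obtain ⟨q, hq, hq'⟩ := t.2
    rw [Subgroup.mem_centralizer_singleton_iff] at hq
    rw [Finset.mem_filter, hmem]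
    refine ⟨⟨r * q, by rw [hq']; group⟩, ?_⟩
    rw [hq', hconj, hconj, hm, hr, hq]
    group
  · intro t
    apply Subtype.ext
    change r * (r⁻¹ * t.1 * r) * r⁻¹ = t.1
    group
  · intro t
    apply Subtype.ext
    change r⁻¹ * (r * t.1 * r⁻¹) * r = t.1
    group

end rep

/-- row KIN -/
theorem kin : KinStmt := by
  intro ℓ _ M _ hℓM G _ _ e V u a ha he hTp huV hcen hou hcard
  have hℓ : ℓ.Prime := Fact.out
  have hF : GoodF ℓ (FF M) := H50.fld ℓ hℓ M hℓM
  obtain ⟨-, ⟨hblkN, -⟩, y, hyV, hey, hrel, c, hc, hcy⟩ :=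
    H69.fmg ℓ M hℓM G e he V hTp
  have hreg : Reg ℓ y := by
    by_contra hcon
    exact hey (H47O.osi H63.sma H74.rgl ℓ (FF M) hF G e he.1 y hcon)
  have huy : u * y = y * u := Subgroup.mem_centralizer_iff.1 hyV u huV
  obtain ⟨m, hm⟩ := exists_pow huy hou hreg
  have hle : Cu (u * y) ≤ Cu y := by
    intro g hg
    rw [Subgroup.mem_centralizer_singleton_iff] at hg ⊢
    have h1 : Commute g (u * y) := hg
    have h2 := h1.pow_right m
    rw [hm] at h2
    exact h2
  have hVle : V ≤ Cu (u * y) := by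
    intro v hv
    rw [Subgroup.mem_centralizer_singleton_iff]
    have h1 := hcen v hv
    have h2 := Subgroup.mem_centralizer_iff.1 hyV v hv
    calc v * (u * y) = v * u * y := by group
      _ = u * (v * y) := by rw [h1]; group
      _ = u * y * v := by rw [h2]; group
  have hsyl : ¬ ℓ ∣ V.relIndex (Cu (u * y)) := by
    intro h
    apply hrel
    have h1 := Subgroup.relIndex_mul_relIndex V (Cu (u * y)) (Cu y) hVle hle
    rw [← h1]
    exact h.mul_right _
  refine ⟨y, ha, he, hTp, huV, hcen, hou, hcard, hreg, hyV, hsyl, ?_⟩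
  have hK : IsCl (clsum (FF M) (⊤ : Subgroup G) (u * y)) := H50.isCl_clsum (u * y)
  have hK1 : IsCl (clsum (FF M) (⊤ : Subgroup G) y) := H50.isCl_clsum y
  rcases H50.blk_dich he hK with ⟨n, hn⟩ | h
  · exfalso
    have hcN := H69.cent_le_norm V
    have huN : u ∈ Subgroup.normalizer (V : Set G) := Subgroup.le_normalizer huV
    have hyN : y ∈ Subgroup.normalizer (V : Set G) := hcN hyV
    obtain ⟨yN, hyN'⟩ : ∃ x : Subgroup.normalizer (V : Set G), x = ⟨y, hyN⟩ := ⟨_, rfl⟩
    obtain ⟨uN, huN'⟩ : ∃ x : Subgroup.normalizer (V : Set G), x = ⟨u, huN⟩ := ⟨_, rfl⟩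
    have hy1 : (yN : G) = y := by rw [hyN']
    have hu1 : (uN : G) = u := by rw [huN']
    have huy1 : ((uN * yN : Subgroup.normalizer (V : Set G)) : G) = u * y := by
      rw [Subgroup.coe_mul, hu1, hy1]
    obtain ⟨b1, b2, -⟩ := H20.brm ℓ (FF M) hF G V (Subgroup.normalizer (V : Set G)) hTp.pg hcN
      le_rfl
    have hstep : ∀ a b : G → FF M, IsCl a → IsCl b →
        (fun t : Subgroup.normalizer (V : Set G) => br V (mulF a b) t) =
          mulF (fun t : Subgroup.normalizer (V : Set G) => br V a t)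
            (fun t : Subgroup.normalizer (V : Set G) => br V b t) := by
      intro a b hca hcb
      rw [b1 a b hca hcb]
      exact b2 a b
    have hcl1 : (fun t : Subgroup.normalizer (V : Set G) =>
        br V (clsum (FF M) (⊤ : Subgroup G) (u * y)) t) =
        clsum (FF M) (⊤ : Subgroup (Subgroup.normalizer (V : Set G))) (uN * yN) := by
      have h1 := H69.br_clsum (F := FF M) hTp.pg (y := uN * yN) (by
        rw [huy1, Subgroup.mem_centralizer_iff]
        intro v hv
        exact Subgroup.mem_centralizer_singleton_iff.1 (hVle hv)) (by rw [huy1]; exact hsyl)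
      rw [huy1] at h1
      exact h1
    have hcl2 : (fun t : Subgroup.normalizer (V : Set G) =>
        br V (clsum (FF M) (⊤ : Subgroup G) y) t) =
        clsum (FF M) (⊤ : Subgroup (Subgroup.normalizer (V : Set G))) yN := by
      have h1 := H69.br_clsum (F := FF M) hTp.pg (y := yN) (by rw [hy1]; exact hyV)
        (by rw [hy1]; exact hrel)
      rw [hy1] at h1
      exact h1
    obtain ⟨d, ρ, hρ, hρe⟩ := exists_rep hF hblkN.1 hblkN.2.1
    have hnls := H20.nls ℓ (FF M) hF (Subgroup.normalizer (V : Set G))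
      (V.subgroupOf (Subgroup.normalizer (V : Set G))) Subgroup.normal_in_normalizer
      hTp.pg.comap_subtype d ρ hρ
    have hmN : (uN * yN) ^ m = yN := by
      apply Subtype.ext
      rw [Subgroup.coe_pow, huy1, hm, hy1]
    have hu2 : ∀ q : Subgroup.normalizer (V : Set G), ρ (q * uN * q⁻¹) = 1 := by
      intro q
      apply hnls.1
      rw [Subgroup.mem_subgroupOf]
      change (q : G) * (uN : G) * (q : G)⁻¹ ∈ V
      rw [hu1]
      exact (Subgroup.mem_normalizer_iff.1 q.2 u).1 huV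
    have hev := ev_clsum ρ hmN hu2
    -- the iterates
    have hclit : ∀ j : ℕ, IsCl ((mulF (clsum (FF M) (⊤ : Subgroup G) (u * y)))^[j] e) := by
      intro j
      induction j with
      | zero => exact he.1.1
      | succ j ih =>
        rw [Function.iterate_succ_apply']
        exact H50.isCl_mulF hK ih
    have hit : ∀ j : ℕ, (fun t : Subgroup.normalizer (V : Set G) =>
        br V ((mulF (clsum (FF M) (⊤ : Subgroup G) (u * y)))^[j] e) t) =
        (mulF (clsum (FF M) (⊤ : Subgroup (Subgroup.normalizer (V : Set G))) (uN * yN)))^[j]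
          (fun t : Subgroup.normalizer (V : Set G) => br V e t) := by
      intro j
      induction j with
      | zero => rfl
      | succ j ih =>
        rw [Function.iterate_succ_apply', Function.iterate_succ_apply', hstep _ _ hK (hclit j),
          hcl1, ih]
    have h0 : (mulF (clsum (FF M) (⊤ : Subgroup (Subgroup.normalizer (V : Set G)))
        (uN * yN)))^[n] (fun t : Subgroup.normalizer (V : Set G) => br V e t) = 0 := by
      rw [← hit n, hn]
      funext t
      by_cases ht : (t : G) ∈ Subgroup.centralizer (V : Set G)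
      · rw [H66.br_of_mem ht]
        rfl
      · rw [H66.br_of_not_mem ht]
        rfl
    have h1 : ev ρ (clsum (FF M) (⊤ : Subgroup (Subgroup.normalizer (V : Set G)))
        (uN * yN)) ^ n = 0 := by
      have h2 := congrArg (ev ρ) h0
      rw [ev_iterate, hρe, mul_one] at h2
      rw [h2]
      exact ev_zero ρ
    have h2 : ev ρ (fun t : Subgroup.normalizer (V : Set G) => br V c t) *
        ev ρ (clsum (FF M) (⊤ : Subgroup (Subgroup.normalizer (V : Set G))) yN) = 1 := by
      have h3 := congrArg (fun f : G → FF M => fun t : Subgroup.normalizer (V : Set G) =>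
        br V f t) hcy
      have h4 : (fun t : Subgroup.normalizer (V : Set G) =>
          br V (mulF (mulF c (clsum (FF M) (⊤ : Subgroup G) y)) e) t) =
          fun t : Subgroup.normalizer (V : Set G) => br V e t := h3
      rw [hstep _ _ (H50.isCl_mulF hc hK1) he.1.1, hstep _ _ hc hK1, hcl2] at h4
      have h5 := congrArg (ev ρ) h4
      rw [ev_mulF, ev_mulF, hρe, mul_one] at h5
      exact h5
    obtain ⟨w, hw, -, -⟩ := H20.eig (FF M) _ d ρ hρ
      (clsum (FF M) (⊤ : Subgroup (Subgroup.normalizer (V : Set G))) yN) (H50.isCl_clsum yN)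
    have hd : 0 < d := hρ.1
    have hw0 : w ≠ 0 := by
      rintro rfl
      rw [hw, map_zero, mul_zero] at h2
      exact one_ne hd h2
    obtain ⟨k, hk⟩ : ∃ k : ℕ, k = (Cu (uN * yN)).relIndex (Cu yN) := ⟨_, rfl⟩
    rw [← hk, hw] at hev
    rw [hev, smul_scalar, ← map_pow] at h1
    have h4 : ((k : FF M) * w) ^ n = 0 := scalar_entry hd h1
    have h4' : (k : FF M) * w = 0 := eq_zero_of_pow_eq_zero' h4
    have h5 : (k : FF M) = 0 := by
      rcases mul_eq_zero.1 h4' with h | h
      · exact h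
      · exact absurd h hw0
    have hch := hF.char
    have h6 : ℓ ∣ k := (CharP.cast_eq_zero_iff (FF M) ℓ k).1 h5
    refine idx_norm (V := V) (Subgroup.le_normalizer) (x := uN * yN) (y := yN) ?_ ?_ ?_
      (hk ▸ h6)
    · rw [huy1]; exact hVle
    · rw [huy1, hy1]; exact hle
    · rw [hy1]; exact hrel
  · exact h

end Pool.Agent.PP.T5.H76
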